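import Pool.Agent.Helper22_Men.Stmts

/-!
# Squad MEN, module PRE

The Sacks side and the colour are fixed: from one countable hull one gets, with the lemmas ABS and
STAR, one condition of the Sacks side and one colour such that the decided states are dense.
-/

open MeasureTheory Set

namespace Pool.Agent.Men.RR.H40

section
variable {I Λ : Type} [LinearOrder I] [LinearOrder Λ]

theorem ctl_mono [WellFoundedLT Λ] {N : Set (Cond ℕ Λ)} {W W' : ℕ → Set (Pt ℕ Λ)}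
    {P P' : Cond ℕ Λ} {j : Λ} {σ : Node} {A A' : Set ℕ} (hW : ∀ k, W k ⊆ W' k) (hP : P' ≤ P)
    (hA : A' ⊆ A) (h : Ctl N W P j σ A) : Ctl N W' P' j σ A' := by
  intro k hk g hg hgb hgP
  obtain ⟨h', h1, h2, h3, m, h4⟩ :=
    h k (hA hk) g hg hgb (hgP.trans (Cond.restr_mono (isLowerSet_Iio j) hP))
  exact ⟨h', h1, h2, h3, m, fun y hy hy' hm => hW k (h4 y (hP hy) hy' hm)⟩

theorem ctl_list {N : Set (Cond ℕ Λ)} {F : ℕ → Set (Pt ℕ Λ × Pt (Fin 2) I)} {μ : Bool}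
    {P : Cond ℕ Λ} {j : Λ} {σ : Node} {A : Set ℕ} (l : List (Cond (Fin 2) I))
    (hl : ∀ t ∈ l, Ctl N (Wf F t μ) P j σ A) :
    Ctl N (fun k => {y | ∀ t ∈ l, y ∈ Wf F t μ k}) P j σ A := by
  induction l with
  | nil =>
    intro k _ h hN hb _
    exact ⟨h, hN, hb, le_rfl, 0, fun y _ _ _ t ht => by simp at ht⟩
  | cons t l ih =>
    intro k hk h hN hb hP
    obtain ⟨h1, a1, a2, a3, m1, a4⟩ :=
      ih (fun t ht => hl t (List.mem_cons_of_mem _ ht)) k hk h hN hb hP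
    obtain ⟨h2, b1, b2, b3, m2, b4⟩ := hl t List.mem_cons_self k hk h1 a1 a2 (a3.trans hP)
    refine ⟨h2, b1, b2, b3.trans a3, max m1 m2, fun y hy hy2 hm u hu => ?_⟩
    rcases List.mem_cons.1 hu with rfl | hu
    · exact b4 y hy hy2 (le_trans (le_max_right _ _) hm)
    · exact a4 y hy (b3 hy2) (le_trans (le_max_left _ _) hm) u hu

omit [LinearOrder Λ] in
theorem wf_mono {F : ℕ → Set (Pt ℕ Λ × Pt (Fin 2) I)} {s s' : Cond (Fin 2) I} (h : s' ≤ s)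
    (μ : Bool) (k : ℕ) : Wf F s μ k ⊆ Wf F s' μ k := fun _ hy x hx => hy x (h hx)

/-- The least digit `≥ a0` after the node `σ`. -/
theorem dig_ex (σ : Node) (a0 : ℕ) (T : Set Node) :
    ∃ a, (a0 ≤ a ∧ σ ++ [a] ∈ T) ∨ ∀ b, ¬ (a0 ≤ b ∧ σ ++ [b] ∈ T) := by
  by_cases h : ∃ b, a0 ≤ b ∧ σ ++ [b] ∈ T
  · obtain ⟨b, hb⟩ := h
    exact ⟨b, Or.inl hb⟩
  · exact ⟨0, Or.inr fun b hb => h ⟨b, hb⟩⟩

open Classical in
/-- The least digit `≥ a0` after the node `σ`. -/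
noncomputable def dig (σ : Node) (a0 : ℕ) (T : Set Node) : ℕ := Nat.find (dig_ex σ a0 T)

theorem measurable_dig (σ : Node) (a0 : ℕ) : Measurable (dig σ a0) := by
  classical
  have h0 : ∀ b, MeasurableSet {T : Set Node | a0 ≤ b ∧ σ ++ [b] ∈ T} := fun b => by
    by_cases hb : a0 ≤ b
    · simpa [hb] using measurableSet_mem_node (σ ++ [b])
    · simp [hb]
  refine measurable_find (fun T => dig_ex σ a0 T) fun k => ?_
  have : {T : Set Node | (a0 ≤ k ∧ σ ++ [k] ∈ T) ∨ ∀ b, ¬ (a0 ≤ b ∧ σ ++ [b] ∈ T)} =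
      {T : Set Node | a0 ≤ k ∧ σ ++ [k] ∈ T} ∪ ⋂ b, {T : Set Node | a0 ≤ b ∧ σ ++ [b] ∈ T}ᶜ := by
    ext T
    simp
  rw [this]
  exact (h0 k).union (MeasurableSet.iInter fun b => (h0 b).compl)

theorem dig_spec {σ : Node} {a0 : ℕ} {T : Set Node} (h : {a | σ ++ [a] ∈ T}.Infinite) :
    a0 ≤ dig σ a0 T ∧ σ ++ [dig σ a0 T] ∈ T := by
  classical
  have h1 := Nat.find_spec (dig_ex σ a0 T)
  rcases h1 with h1 | h1
  · exact h1
  · obtain ⟨b, hb, hb'⟩ := h.exists_gt a0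
    exact (h1 b ⟨hb'.le, hb⟩).elim

/-- A function of one point can be made constant. -/
theorem const1 [WellFoundedLT Λ] (hConst : ConstStmt) (j : Λ) (f : Pt ℕ Λ → ℕ)
    (hf : Measurable f) (hd : DepFun (Iio j) f) (h : Cond ℕ Λ) (hb : h.Below (Iio j)) :
    ∃ h' ≤ h, h'.Below (Iio j) ∧ ∃ m, ∀ y ∈ h'.body, f y = m := by
  obtain ⟨h', h1, h2, s', _, n, h3⟩ := hConst Unit Λ (Iio j) (isLowerSet_Iio j)
    (fun z => f z.1) (hf.comp measurable_fst) (fun y y' x hy => hd y y' hy) h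
    (Cond.one (Fin 2) Unit) hb
  obtain ⟨x, hx⟩ := s'.body_nonempty
  exact ⟨h', h1, h2, n, fun y hy => h3 y hy x hx⟩

/-- States. -/
structure St1 (N : Set (Cond ℕ Λ)) (𝓑 : Set (Set ℕ)) (L : Set Λ) (lev : ℕ → Λ) where
  P : Cond ℕ Λ
  n : ℕ
  σ : Node
  b : Set ℕ
  hP : P ∈ N
  hb : b ∈ 𝓑
  below : P.Below L
  stem : Stem P (lev n) σ

instance (N : Set (Cond ℕ Λ)) (𝓑 : Set (Set ℕ)) (L : Set Λ) (lev : ℕ → Λ) :
    Preorder (St1 N 𝓑 L lev) where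
  le z' z := z'.n = z.n ∧ z'.σ = z.σ ∧ z'.P ≤ z.P ∧ z'.b ⊆ z.b
  le_refl z := ⟨rfl, rfl, le_rfl, Subset.rfl⟩
  le_trans a b c h h' := ⟨h.1.trans h'.1, h.2.1.trans h'.2.1, h.2.2.1.trans h'.2.2.1,
    h.2.2.2.trans h'.2.2.2⟩

theorem st1_countable {N : Set (Cond ℕ Λ)} {𝓑 : Set (Set ℕ)} (hN : N.Countable)
    (h𝓑 : 𝓑.Countable) (L : Set Λ) (lev : ℕ → Λ) : Countable (St1 N 𝓑 L lev) := by
  have := hN.to_subtype
  have := h𝓑.to_subtype
  refine Function.Injective.countable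
    (f := fun z : St1 N 𝓑 L lev => ((⟨z.P, z.hP⟩ : ↥N), z.n, z.σ, (⟨z.b, z.hb⟩ : ↥𝓑))) ?_
  rintro ⟨P, n, σ, b, h1, h2, h3, h4⟩ ⟨P', n', σ', b', h1', h2', h3', h4'⟩ h
  simp only [Prod.mk.injEq, Subtype.mk.injEq] at h
  obtain ⟨rfl, rfl, rfl, rfl⟩ := h
  rfl

/-- States with a finite covering of the Sacks side. -/
structure St2 (N : Set (Cond ℕ Λ)) (𝓑 : Set (Set ℕ)) (L : Set Λ) (lev : ℕ → Λ)
    (F : ℕ → Set (Pt ℕ Λ × Pt (Fin 2) I)) (NS : Set (Cond (Fin 2) I)) (sa : Cond (Fin 2) I) where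
  z : St1 N 𝓑 L lev
  l : List ↥NS
  cov : ∀ x ∈ sa.body, ∃ t ∈ l, x ∈ t.1.body
  dec : ∀ t ∈ l, ∃ μ, Ctl N (Wf F t.1 μ) z.P (lev z.n) z.σ z.b

instance (N : Set (Cond ℕ Λ)) (𝓑 : Set (Set ℕ)) (L : Set Λ) (lev : ℕ → Λ)
    (F : ℕ → Set (Pt ℕ Λ × Pt (Fin 2) I)) (NS : Set (Cond (Fin 2) I)) (sa : Cond (Fin 2) I) :
    Preorder (St2 N 𝓑 L lev F NS sa) where
  le r' r := r'.z.P ≤ r.z.P ∧ r.z.n ≤ r'.z.n ∧ r'.z.b ⊆ r.z.b
  le_refl z := ⟨le_rfl, le_rfl, Subset.rfl⟩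
  le_trans a b c h h' := ⟨h.1.trans h'.1, h'.2.1.trans h.2.1, h.2.2.trans h'.2.2⟩

theorem st2_countable {N : Set (Cond ℕ Λ)} {𝓑 : Set (Set ℕ)} (hN : N.Countable)
    (h𝓑 : 𝓑.Countable) (L : Set Λ) (lev : ℕ → Λ) (F : ℕ → Set (Pt ℕ Λ × Pt (Fin 2) I))
    {NS : Set (Cond (Fin 2) I)} (hNS : NS.Countable) (sa : Cond (Fin 2) I) :
    Countable (St2 N 𝓑 L lev F NS sa) := by
  have := st1_countable hN h𝓑 L lev
  have := hNS.to_subtype
  refine Function.Injective.countable (f := fun r : St2 N 𝓑 L lev F NS sa => (r.z, r.l)) ?_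
  rintro ⟨z, l, h1, h2⟩ ⟨z', l', h1', h2'⟩ h
  simp only [Prod.mk.injEq] at h
  obtain ⟨rfl, rfl⟩ := h
  rfl

/-- The set of points of the Sacks side where the colour is `true`. -/
def St2.A {N : Set (Cond ℕ Λ)} {𝓑 : Set (Set ℕ)} {L : Set Λ} {lev : ℕ → Λ}
    {F : ℕ → Set (Pt ℕ Λ × Pt (Fin 2) I)} {NS : Set (Cond (Fin 2) I)} {sa : Cond (Fin 2) I}
    (r : St2 N 𝓑 L lev F NS sa) : Set (Pt (Fin 2) I) :=
  {x | ∃ t ∈ r.l, Ctl N (Wf F t.1 true) r.z.P (lev r.z.n) r.z.σ r.z.b ∧ x ∈ t.1.body}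

theorem St2.measurableSet_A {N : Set (Cond ℕ Λ)} {𝓑 : Set (Set ℕ)} {L : Set Λ} {lev : ℕ → Λ}
    {F : ℕ → Set (Pt ℕ Λ × Pt (Fin 2) I)} {NS : Set (Cond (Fin 2) I)} {sa : Cond (Fin 2) I}
    (r : St2 N 𝓑 L lev F NS sa) : MeasurableSet r.A := by
  have : r.A = ⋃ t ∈ {t | t ∈ r.l ∧ Ctl N (Wf F t.1 true) r.z.P (lev r.z.n) r.z.σ r.z.b},
      t.1.body := by
    ext x
    simp only [St2.A, mem_ofPred_eq, mem_iUnion, exists_prop, and_assoc]
  rw [this]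
  exact Finite.measurableSet_biUnion ((List.finite_toSet r.l).subset fun t ht => ht.1)
    fun t _ => t.1.measurableSet_body

/-- The control passes to a condition which is covered by the list. -/
theorem ctl_cover [WellFoundedLT Λ] {N : Set (Cond ℕ Λ)} {F : ℕ → Set (Pt ℕ Λ × Pt (Fin 2) I)}
    {NS : Set (Cond (Fin 2) I)} {μ : Bool}
    {P : Cond ℕ Λ} {j : Λ} {σ : Node} {A : Set ℕ} (l : List ↥NS) (s1 : Cond (Fin 2) I)
    (hs1 : ∀ x ∈ s1.body, ∃ t ∈ l, Ctl N (Wf F t.1 μ) P j σ A ∧ x ∈ t.1.body) :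
    Ctl N (Wf F s1 μ) P j σ A := by
  classical
  let l' : List (Cond (Fin 2) I) :=
    (l.filter fun t => Ctl N (Wf F t.1 μ) P j σ A).map Subtype.val
  have h1 : ∀ t ∈ l', Ctl N (Wf F t μ) P j σ A := by
    intro t ht
    simp only [l', List.mem_map, List.mem_filter, decide_eq_true_eq] at ht
    obtain ⟨u, hu, rfl⟩ := ht
    exact hu.2
  refine ctl_mono (fun k y hy => ?_) le_rfl Subset.rfl (ctl_list l' h1)
  intro x hx
  obtain ⟨t, ht, ht1, ht2⟩ := hs1 x hx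
  refine hy t.1 ?_ x ht2
  simp only [l', List.mem_map, List.mem_filter, decide_eq_true_eq]
  exact ⟨t, ⟨ht, ht1⟩, rfl⟩

end

theorem pre (hAbs : AbsStmt) (hStar : StarStmt) (hHull : HullStmt) (hClo : CloStmt)
    (hEx : ExStmt) (hRw : RwStmt) (hStem : StemStmt) (hConst : ConstStmt) : PreStmt := by
  classical
  intro I Λ _ _ _ _ _ L hL lev hlev hReap F hFm hFd p s hpL B hB
  -- choice functions
  have stemE : ∀ (P : Cond ℕ Λ) (n : ℕ), ∃ P' : Cond ℕ Λ, P.Below L →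
      (P' ≤ P ∧ P'.Below L ∧ ∃ σ, Stem P' (lev n) σ) := by
    intro P n
    by_cases h : P.Below L
    · obtain ⟨P', h1, h2, h3⟩ := hStem Λ L hL (lev n) (hlev n) P h
      exact ⟨P', fun _ => ⟨h1, h2, h3⟩⟩
    · exact ⟨P, fun h' => (h h').elim⟩
  choose stemC hstemC using stemE
  have exE : ∀ (P : Cond ℕ Λ) (n : ℕ) (σ : Node) (t : Cond (Fin 2) I)
      (b : {b : Set ℕ // b.Infinite}),
      ∃ (P' : Cond ℕ Λ) (t' : Cond (Fin 2) I) (b' : {b : Set ℕ // b.Infinite})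
        (ι : ℕ → Pt ℕ Λ → ℕ) (μ : Bool),
      P.Below L → Stem P (lev n) σ → (P' ≤ P ∧ P'.Below L ∧ Stem P' (lev n) σ ∧ t' ≤ t ∧
        b'.1 ⊆ b.1 ∧ ∀ k ∈ b'.1, Measurable (ι k) ∧ DepFun (Iio (lev n)) (ι k) ∧
          ∀ y ∈ P'.body, ∀ x ∈ t'.body, ι k y ≤ y (lev n) σ.length →
            ((y, x) ∈ F k ↔ μ = true)) := by
    intro P n σ t b
    by_cases h : P.Below L ∧ Stem P (lev n) σ
    · obtain ⟨P', h1, h2, h3, t', h4, B', h5, h6, μ, h7⟩ := hEx I Λ (lev n) (hReap n)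
        (hRw I Λ (Iio (lev n)) (isLowerSet_Iio _) (hReap n)) L hL (hlev n) F hFm hFd P t σ
        h.1 h.2 b.1 b.2
      choose! ι hι using h7
      exact ⟨P', t', ⟨B', h6⟩, ι, μ, fun _ _ => ⟨h1, h2, h3, h4, h5, fun k hk => hι k hk⟩⟩
    · exact ⟨P, t, b, fun _ _ => 0, true, fun h1 h2 => (h ⟨h1, h2⟩).elim⟩
  choose exP exS exB exι exμ hex using exE
  have conE : ∀ (f : Pt ℕ Λ → ℕ) (n : ℕ) (h : Cond ℕ Λ), ∃ h' : Cond ℕ Λ, Measurable f →
      DepFun (Iio (lev n)) f → h.Below (Iio (lev n)) →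
      (h' ≤ h ∧ h'.Below (Iio (lev n)) ∧ ∃ m, ∀ y ∈ h'.body, f y = m) := by
    intro f n h
    by_cases hh : Measurable f ∧ DepFun (Iio (lev n)) f ∧ h.Below (Iio (lev n))
    · obtain ⟨h', h1, h2, h3⟩ := const1 hConst (lev n) f hh.1 hh.2.1 h hh.2.2
      exact ⟨h', fun _ _ _ => ⟨h1, h2, h3⟩⟩
    · exact ⟨h, fun h1 h2 h3 => (hh ⟨h1, h2, h3⟩).elim⟩
  choose conC hconC using conE
  obtain ⟨OpL, hOpL⟩ := hClo.1 Λ
  obtain ⟨OpS, hOpS⟩ := hAbs I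
  obtain ⟨e, he⟩ := exists_surjective_nat (Fin 5 × ℕ × Node × ℕ)
  -- the operations of the hull
  let f : ℕ → Cond ℕ Λ → Cond ℕ Λ → Cond (Fin 2) I → Cond (Fin 2) I →
      {b : Set ℕ // b.Infinite} → Cond ℕ Λ := fun k a a' b _ c =>
    if (e k).1 = 0 then OpL (e k).2.1 a a'
    else if (e k).1 = 1 then stemC a (e k).2.1
    else if (e k).1 = 2 then exP a (e k).2.1 (e k).2.2.1 b c
    else if (e k).1 = 3 then
      conC (exι a (e k).2.1 (e k).2.2.1 b c (e k).2.2.2) (e k).2.1 a'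
    else conC (dig (e k).2.2.1 (e k).2.2.2 ∘ a.T (lev (e k).2.1)) (e k).2.1 a'
  let g : ℕ → Cond ℕ Λ → Cond ℕ Λ → Cond (Fin 2) I → Cond (Fin 2) I →
      {b : Set ℕ // b.Infinite} → Cond (Fin 2) I := fun k a _ b b' c =>
    if (e k).1 = 0 then OpS (e k).2.1 b b'
    else exS a (e k).2.1 (e k).2.2.1 b c
  have tailE : ∀ (b : {b : Set ℕ // b.Infinite}) (m : ℕ), (b.1 ∩ Ioi m).Infinite := by
    intro b m
    have h1 : b.1 ∩ Ioi m = b.1 \ Iic m := by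
      ext x; simp
    rw [h1]
    exact b.2.sdiff (finite_Iic m)
  let h : ℕ → Cond ℕ Λ → Cond ℕ Λ → Cond (Fin 2) I → Cond (Fin 2) I →
      {b : Set ℕ // b.Infinite} → {b : Set ℕ // b.Infinite} := fun k a _ b _ c =>
    if (e k).1 = 0 then ⟨c.1 ∩ Ioi (e k).2.1, tailE c _⟩
    else exB a (e k).2.1 (e k).2.2.1 b c
  obtain ⟨N, NS, NB, cN, cS, cB, hpN, hsN, hbN, hcl⟩ := hHull (Cond ℕ Λ) (Cond (Fin 2) I)
    {b : Set ℕ // b.Infinite} f g h {p} {s} {⟨B, hB⟩} (countable_singleton _)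
    (countable_singleton _) (countable_singleton _)
  have hpN : p ∈ N := hpN rfl
  have hsN : s ∈ NS := hsN rfl
  have hbN : (⟨B, hB⟩ : {b : Set ℕ // b.Infinite}) ∈ NB := hbN rfl
  have clL : ∀ n, ∀ a ∈ N, ∀ a' ∈ N, OpL n a a' ∈ N := by
    intro n a ha a' ha'
    obtain ⟨k, hk⟩ := he (0, n, [], 0)
    have := (hcl k a ha a' ha' s hsN s hsN _ hbN).1
    simpa [f, hk] using this
  have clS : ∀ n, ∀ a ∈ NS, ∀ a' ∈ NS, OpS n a a' ∈ NS := by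
    intro n a ha a' ha'
    obtain ⟨k, hk⟩ := he (0, n, [], 0)
    have := (hcl k p hpN p hpN a ha a' ha' _ hbN).2.1
    simpa [g, hk] using this
  have clB : ∀ m, ∀ c (hc : c ∈ NB), (⟨c.1 ∩ Ioi m, tailE c m⟩ : {b : Set ℕ // b.Infinite}) ∈ NB := by
    intro m c hc
    obtain ⟨k, hk⟩ := he (0, m, [], 0)
    have := (hcl k p hpN p hpN s hsN s hsN c hc).2.2
    simpa [h, hk] using this
  have clStem : ∀ n, ∀ a ∈ N, stemC a n ∈ N := by
    intro n a ha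
    obtain ⟨k, hk⟩ := he (1, n, [], 0)
    have := (hcl k a ha p hpN s hsN s hsN _ hbN).1
    simpa [f, hk] using this
  have clEx : ∀ n σ, ∀ a ∈ N, ∀ b ∈ NS, ∀ c ∈ NB,
      exP a n σ b c ∈ N ∧ exS a n σ b c ∈ NS ∧ exB a n σ b c ∈ NB := by
    intro n σ a ha b hb c hc
    obtain ⟨k, hk⟩ := he (2, n, σ, 0)
    have := hcl k a ha p hpN b hb s hsN c hc
    simpa [f, g, h, hk] using this
  have clCon : ∀ n σ k, ∀ a ∈ N, ∀ b ∈ NS, ∀ c ∈ NB, ∀ a' ∈ N,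
      conC (exι a n σ b c k) n a' ∈ N := by
    intro n σ k a ha b hb c hc a' ha'
    obtain ⟨k', hk⟩ := he (3, n, σ, k)
    have := (hcl k' a ha a' ha' b hb s hsN c hc).1
    simpa [f, hk] using this
  have clDig : ∀ n σ a0, ∀ a ∈ N, ∀ a' ∈ N, conC (dig σ a0 ∘ a.T (lev n)) n a' ∈ N := by
    intro n σ k a ha a' ha'
    obtain ⟨k', hk⟩ := he (4, n, σ, k)
    have := (hcl k' a ha a' ha' s hsN s hsN _ hbN).1
    simpa [f, hk] using this
  have cloN : Clo N := hOpL N cN ⟨p, hpN⟩ clL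
  set 𝓑 : Set (Set ℕ) := Subtype.val '' NB with h𝓑
  have c𝓑 : 𝓑.Countable := cB.image _
  -- ABS
  have := st1_countable cN c𝓑 L lev
  obtain ⟨sa, hsa, habs⟩ := hOpS (St1 N 𝓑 L lev) NS cS clS
    (fun _ t z => ∃ μ, Ctl N (Wf F t μ) z.P (lev z.n) z.σ z.b)
    (by
      rintro _ t _ t' _ z z' ⟨μ, hμ⟩ htt ⟨h1, h2, h3, h4⟩
      refine ⟨μ, ?_⟩
      rw [h1, h2]
      exact ctl_mono (fun k => wf_mono htt μ k) h3 h4 hμ)
    (by
      intro _ t ht z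
      obtain ⟨c, hc, hcb⟩ := z.hb
      obtain ⟨e1, e2, e3⟩ := clEx z.n z.σ z.P z.hP t ht c hc
      obtain ⟨h1, h2, h3, h4, h5, h6⟩ := hex z.P z.n z.σ t c z.below z.stem
      refine ⟨exS z.P z.n z.σ t c, e2, h4,
        ⟨exP z.P z.n z.σ t c, z.n, z.σ, (exB z.P z.n z.σ t c).1, e1, ⟨_, e3, rfl⟩, h2, h3⟩,
        ⟨rfl, rfl, h1, by rw [← hcb]; exact h5⟩, exμ z.P z.n z.σ t c, ?_⟩
      intro k hk g hg hgb hgP
      obtain ⟨i1, i2, i3⟩ := h6 k hk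
      obtain ⟨j1, j2, m, j3⟩ := hconC _ z.n g i1 i2 hgb
      refine ⟨_, clCon z.n z.σ k z.P z.hP t ht c hc g hg, j2, j1, m, ?_⟩
      intro y hy hy' hm x hx
      exact i3 y hy x hx (by rw [j3 y hy']; exact hm))
    s hsN
  -- every state can be improved to a state with a list
  have step : ∀ z : St1 N 𝓑 L lev, ∃ r : St2 N 𝓑 L lev F NS sa, r.z ≤ z := by
    intro z
    obtain ⟨z', hz', l, hl, hcov⟩ := habs 0 z
    refine ⟨⟨z', l.attach.map fun t => ⟨t.1, (hl t.1 t.2).1⟩, ?_, ?_⟩, hz'⟩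
    · intro x hx
      obtain ⟨t, ht, hxt⟩ := hcov x hx
      exact ⟨⟨t, (hl t ht).1⟩, List.mem_map.2 ⟨⟨t, ht⟩, List.mem_attach _ _, rfl⟩, hxt⟩
    · intro t ht
      obtain ⟨u, _, rfl⟩ := List.mem_map.1 ht
      exact (hl u.1 u.2).2
  -- from conditions to states
  have start : ∀ P ∈ N, P.Below L → ∀ b ∈ 𝓑, ∀ n, ∃ r : St2 N 𝓑 L lev F NS sa,
      r.z.P ≤ P ∧ r.z.n = n ∧ r.z.b ⊆ b := by
    intro P hP hPL b hb n
    obtain ⟨h1, h2, σ, h3⟩ := hstemC P n hPL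
    obtain ⟨r, h4, h5, h6, h7⟩ := step ⟨stemC P n, n, σ, b, clStem n P hP, hb, h2, h3⟩
    exact ⟨r, h6.trans h1, h4, h7⟩
  obtain ⟨r0, hr0P, -, hr0b⟩ := start p hpN hpL B ⟨_, hbN, rfl⟩ 0
  have := st2_countable cN c𝓑 L lev F cS sa
  obtain ⟨s1, hs1, r1, hr1, D, hD, hdec⟩ := hStar I (St2 N 𝓑 L lev F NS sa)
    (fun r => r.A) (fun r => r.measurableSet_A) r0 sa
  -- the colour
  obtain ⟨μ, hμ⟩ : ∃ μ, ∀ d ∈ D, Ctl N (Wf F s1 μ) d.z.P (lev d.z.n) d.z.σ d.z.b := by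
    rcases hdec with hdec | hdec
    · exact ⟨true, fun d hd => ctl_cover d.l s1 fun x hx => hdec d hd hx⟩
    · refine ⟨false, fun d hd => ctl_cover d.l s1 fun x hx => ?_⟩
      obtain ⟨t, ht, hxt⟩ := d.cov x (hs1 hx)
      obtain ⟨μ, hμ⟩ := d.dec t ht
      cases μ
      · exact ⟨t, ht, hμ, hxt⟩
      · exact ((disjoint_left.1 (hdec d hd)) hx ⟨t, ht, hμ, hxt⟩).elim
  refine ⟨s1, hs1.trans hsa, μ, N, 𝓑, r1.z.P, hr1.1.trans hr0P, r1.z.b,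
    hr1.2.2.trans hr0b, ?_⟩
  exact
    { clo := cloN
      count := c𝓑
      inf := by
        rintro b ⟨c, _, rfl⟩
        exact c.2
      tail := by
        rintro b ⟨c, hc, rfl⟩ m
        exact ⟨_, clB m c hc, rfl⟩
      P1N := r1.z.hP
      P1L := r1.z.below
      b1B := r1.z.hb
      levL := hlev
      depW := by
        intro k y y' hyy
        have h1 := fun x => hFd k y y' x hyy
        constructor
        · intro hy x hx
          rw [← h1 x]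
          exact hy x hx
        · intro hy x hx
          rw [h1 x]
          exact hy x hx
      digit := by
        intro P hP n σ hst g hg hgb hgP a0
        obtain ⟨h1, h2, m, h3⟩ := hconC (dig σ a0 ∘ P.T (lev n)) n g
          ((measurable_dig σ a0).comp (P.meas _))
          (fun y y' hyy => congrArg (dig σ a0) (P.T_congr hyy)) hgb
        have key : ∀ y ∈ (conC (dig σ a0 ∘ P.T (lev n)) n g).body,
            a0 ≤ m ∧ σ ++ [m] ∈ P.T (lev n) y := by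
          intro y hy
          have hy1 : y ∈ P.On (Iio (lev n)) := by
            rw [← Cond.restr_body]
            exact hgP (h1 hy)
          obtain ⟨y', hy', hyy⟩ := P.exists_ext _ (isLowerSet_Iio _) y hy1
          have h4 := (hst y' hy').2.2
          rw [P.T_congr (y' := y) hyy] at h4
          have h5 := dig_spec (a0 := a0) h4
          have h6 := h3 y hy
          simp only [Function.comp] at h6
          rw [h6] at h5
          exact h5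
        obtain ⟨y0, hy0⟩ := (conC (dig σ a0 ∘ P.T (lev n)) n g).body_nonempty
        exact ⟨m, (key y0 hy0).1, _, clDig n σ a0 P hP g hg, h2, h1, fun y hy => (key y hy).2⟩
      dense := by
        intro P hP hPP hPL b hb hbb n
        obtain ⟨r, h1, h2, h3⟩ := start P hP hPL b hb (max n r1.z.n)
        obtain ⟨d, hd, hdr⟩ := hD r ⟨h1.trans hPP, by rw [h2]; exact le_max_right _ _,
          h3.trans hbb⟩
        obtain ⟨d1, d2, d3⟩ := hdr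
        refine ⟨d.z.n, le_trans (le_max_left n r1.z.n) (h2 ▸ d2), d.z.P, d1.trans h1, d.z.σ, d.z.b,
          d.z.hb, d3.trans h3, d.z.hP, d.z.below, d.z.stem, hμ d hd⟩ }

end Pool.Agent.Men.RR.H40
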